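import Pool.Agent.N210.EQ.Main

/-!
# Equidistribution of Galois orbits of special points with pairwise different CM fields

`X = ∏ Y_j` (`j ∈ ι`, `n = |ι|`) is a product of modular curves over a number field `F` (here: any locally
compact spaces with a countable base), `m_j` the invariant probability measure of `Y_j`.  A special point
`x = (x_j)` enters through its Galois data, the structure `SpecialPoint` of
`Pool/Agent/N210/EQ/Core.lean`:

* `G = Gal(L/ℚ)`, `Gam = Gal(L/F)`, `N = Gal(L/M)` for finite Galois extensions `M ⊆ L` of `ℚ`, `F ⊆ M`,
  such that all conjugates of the coordinates over `F` are rational over `L`;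
* `O j ⊆ Y_j` is the orbit of `x_j` under `Gal(L/F)`, `rho j` the action on it;
* `chi j : G → {±1}` is the character of the CM field `K_j`, and `g σ g⁻¹` acts on `O j` as `σ` to the
  power `chi j g` (`g ∈ G`, `σ ∈ N`).

By the theory of complex multiplication this holds with `M = F^gal · ∏ K_j(c)`, where `F^gal` is the Galois
closure of `F` and `K_j(c)` the ray class field of conductor `c`, `c` the level of the `Y_j` (for level one
and `F = ℚ`: `M = ∏ K_j`, and `L/M` the compositum of the ring class fields); the degree of `M` over `F`
is bounded when the special point varies.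

Let `2^r ≥ n` and let `U = s.pow (2^r)` be the subgroup of `N` generated by the `2^r`-th powers.

1. If the CM fields `K_j` are pairwise different (`chi j ≠ chi k`), the Galois orbit of `x` contains the
   product of the `U`-orbits of the coordinates: for all `v_j ∈ U` some `σ ∈ N` acts as `v_j` on `O j` for
   all `j` at once.  For `|φ_j| ≤ 1` the mean of `∏ φ_j(y_j)` over the Galois orbit of `x` in `X` differs
   from `∏ ∫ φ_j` by at most `∑ e_j`, where `e_j` bounds the errors in one variable, on average over the
   cosets of `U`.
2. Hence, for a sequence of special points whose CM fields are pairwise different, the Galois orbits are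
   equidistributed in `X` (the assertion of the problem) if, for each `j`, the `U`-orbits of the conjugates
   of the `j`-th coordinate are equidistributed in `Y_j`, on average over the cosets of `U` (`OneVariable`).
   For CM points with discriminant tending to infinity this is known: the mean square of the error is the
   sum of `|W(φ,ψ)|²` over the characters `ψ` of the Galois group with `ψ^(2^r) = 1`; there are
   `|D|^o(1)` of them (genus theory), and `W(φ,ψ) = O(|D|^-δ)` (Duke, Harcos-Michel, Zhang,
   Michel-Venkatesh).
3. The same for arbitrary special points, without hypothesis on the fields, with arbitrary subgroups `U_j`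
   of `N` whose elements act on the `j`-th coordinate like elements of `N` that fix the other coordinates.
   (For instance: equal CM fields and conductors with bounded greatest common divisors.  The `Y_j` may
   themselves be products, so coordinates with the same CM field can be put together.)
-/

set_option autoImplicit false

namespace Pool.Agent.Results.MP_ad7a55_nt.DistinctFields

open MeasureTheory Filter Topology Pool.Agent.N210.EQ

section Definitions

variable {ι : Type} {Y : ι → Type}

/-- the CM fields of the coordinates are pairwise different -/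
def DistinctFields (s : SpecialPoint ι Y) : Prop := ∀ j k, j ≠ k → s.chi j ≠ s.chi k

/-- elements of `U`, one for each coordinate, can be realised by one element of `N` -/
def OrbitContainsProducts (s : SpecialPoint ι Y) (U : Subgroup s.N) : Prop :=
  ∀ v : ι → s.N, (∀ j, v j ∈ U) → ∃ σ : s.N, ∀ j, s.actHom j σ = s.actHom j (v j)

/-- the elements of `U j` act on the `j`-th coordinate like elements that fix the other coordinates -/
def Separated (s : SpecialPoint ι Y) (U : ι → Subgroup s.N) : Prop :=
  ∀ j, ∀ v ∈ U j, ∃ σ ∈ s.sep j, s.actHom j σ = s.actHom j v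

/-- the mean of a product of functions bounded by one over the Galois orbit differs from the product of
the integrals by at most the sum of the errors in one variable -/
def Effective [Fintype ι] [∀ j, MeasurableSpace (Y j)] (m : ∀ j, Measure (Y j))
    (s : SpecialPoint ι Y) (U : Subgroup s.N) : Prop :=
  ∀ (φ : ∀ j, Y j → ℝ) (e : ι → ℝ), (∀ j y, |φ j y| ≤ 1) →
    (∀ j γ, s.err U j (fun z => φ j (s.pt j z) - ∫ y, φ j y ∂(m j)) (s.at' j γ) ≤ e j) →
    |s.mean (fun y => ∏ j, φ j (y j)) - ∏ j, ∫ y, φ j y ∂(m j)| ≤ ∑ j, e j

/-- the Galois orbits of the special points are equidistributed in the product -/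
def Equidistributed [Fintype ι] [∀ j, TopologicalSpace (Y j)] [∀ j, MeasurableSpace (Y j)]
    (m : ∀ j, Measure (Y j)) (s : ℕ → SpecialPoint ι Y) : Prop :=
  ∀ Φ : (∀ j, Y j) → ℝ, Continuous Φ → HasCompactSupport Φ →
    Tendsto (fun i => (s i).mean Φ) atTop (𝓝 (∫ y, Φ y ∂(Measure.pi m)))

end Definitions

theorem result (ι : Type) [Fintype ι] (Y : ι → Type) [∀ j, TopologicalSpace (Y j)]
    [∀ j, T2Space (Y j)] [∀ j, LocallyCompactSpace (Y j)] [∀ j, SecondCountableTopology (Y j)]
    [∀ j, MeasurableSpace (Y j)] [∀ j, BorelSpace (Y j)]
    (m : ∀ j, Measure (Y j)) [∀ j, IsProbabilityMeasure (m j)]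
    (r : ℕ) (hr : Fintype.card ι ≤ 2 ^ r) :
    (∀ s : SpecialPoint ι Y, DistinctFields s →
      OrbitContainsProducts s (s.pow (2 ^ r)) ∧ Effective m s (s.pow (2 ^ r))) ∧
    (∀ s : ℕ → SpecialPoint ι Y, (∀ i, DistinctFields (s i)) →
      OneVariable m s (fun i _ => (s i).pow (2 ^ r)) → Equidistributed m s) ∧
    (∀ (s : ℕ → SpecialPoint ι Y) (U : ∀ i, ι → Subgroup (s i).N),
      (∀ i, Separated (s i) (U i)) → OneVariable m s U → Equidistributed m s) := by
  classical
  refine ⟨fun s hχ => ?_, fun s hχ h1 Φ hc hs => ?_, 
    fun s U hU h1 Φ hc hs => joint m s U hU h1 Φ hc hs⟩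
  · have hU : ∀ j, ∀ v ∈ s.pow (2 ^ r), ∃ σ ∈ s.sep j, s.actHom j σ = s.actHom j v := fun j v hv =>
      s.separation j (fun k hk => hχ k j hk) hr v hv
    refine ⟨fun v hv => s.realise (fun _ => s.pow (2 ^ r)) hU v hv, fun φ e hφ he => ?_⟩
    have hc : ∀ j, |∫ y, φ j y ∂(m j)| ≤ 1 := by
      intro j
      have := norm_integral_le_of_norm_le_const (μ := m j) (f := φ j) (C := 1)
        (Eventually.of_forall fun y => hφ j y)
      simpa using this
    have he0 : ∀ j, 0 ≤ e j := by
      intro j
      refine le_trans ?_ (he j 1)
      have : (0 : ℝ) = avg s.N (fun _ => 0) := (avg_const 0).symm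
      rw [this]
      exact avg_mono fun g => abs_nonneg _
    have h := s.product_bound (fun _ => s.pow (2 ^ r)) hU (fun j z => φ j (s.pt j z))
      (fun j => ∫ y, φ j y ∂(m j)) (fun _ => 1) e (fun _ => le_rfl) (fun j z => hφ j _) hc he0
      (fun j γ => he j γ) Finset.univ
    rw [SpecialPoint.mean_eq]
    rw [Finset.prod_const_one, one_mul] at h
    exact h
  · exact joint m s _ (fun i j v hv => (s i).separation j (fun k hk => hχ i k j hk) hr v hv) h1 Φ hc hs

end Pool.Agent.Results.MP_ad7a55_nt.DistinctFields
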